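import Mathlib
import Pool.Agent.Lib_MP_d581c5_al.Basic

set_option autoImplicit false
open scoped Pointwise Classical

namespace Pool.Agent.Results.MP_d581c5_al.ProperLength

open Pool.Agent.LibD581c5

/-- weighted word length: a letter of level `n` has weight `n + 1` -/
def wt (w : List ((ℕ × Bool) × Bool)) : ℕ := (w.map (fun p => p.1.1 + 1)).sum

theorem wt_append (v w : List ((ℕ × Bool) × Bool)) : wt (v ++ w) = wt v + wt w := by
  simp [wt]

theorem wt_sublist {v w : List ((ℕ × Bool) × Bool)} (h : v.Sublist w) : wt v ≤ wt w :=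
  List.Sublist.sum_le_sum (h.map _) (fun _ _ => Nat.zero_le _)

theorem wt_invRev (w : List ((ℕ × Bool) × Bool)) : wt (FreeGroup.invRev w) = wt w := by
  unfold wt FreeGroup.invRev
  rw [List.map_reverse, List.map_map, List.sum_reverse]
  rfl

/-- the weighted word length on the group -/
def wlen (g : Gp) : ℕ := wt g.toWord

theorem wlen_mul (g h : Gp) : wlen (g * h) ≤ wlen g + wlen h := by
  unfold wlen
  rw [← wt_append]
  exact wt_sublist (FreeGroup.toWord_mul_sublist g h)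

theorem wlen_inv (g : Gp) : wlen g⁻¹ = wlen g := by
  unfold wlen
  rw [FreeGroup.toWord_inv, wt_invRev]

theorem length_le_wt (w : List ((ℕ × Bool) × Bool)) : w.length ≤ wt w := by
  induction w with
  | nil => simp
  | cons a w ih =>
    have : wt (a :: w) = (a.1.1 + 1) + wt w := by simp [wt]
    rw [List.length_cons, this]
    omega

theorem mem_lt_wt {w : List ((ℕ × Bool) × Bool)} {p : (ℕ × Bool) × Bool} (hp : p ∈ w) :
    p.1.1 < wt w := by
  have h1 : p.1.1 + 1 ≤ wt w := by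
    unfold wt
    exact List.single_le_sum (fun _ _ => Nat.zero_le _) _ (List.mem_map.2 ⟨p, hp, rfl⟩)
  omega

theorem finite_wlen (N : ℕ) : {g : Gp | wlen g ≤ N}.Finite := by
  let K : Set ((ℕ × Bool) × Bool) := (Set.Iio N ×ˢ Set.univ) ×ˢ Set.univ
  have hK : K.Finite := ((Set.finite_Iio N).prod Set.finite_univ).prod Set.finite_univ
  have h1 : {l : List ((ℕ × Bool) × Bool) | l.length ≤ N ∧ ∀ x ∈ l, x ∈ K}.Finite := by
    have : Finite K := hK
    have h2 := List.finite_length_le K N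
    refine (h2.image (List.map Subtype.val)).subset ?_
    rintro l ⟨hl, hlK⟩
    lift l to List K using hlK
    refine ⟨l, ?_, rfl⟩
    simpa using hl
  refine Set.Finite.subset (h1.preimage (f := FreeGroup.toWord) FreeGroup.toWord_injective.injOn) ?_
  intro g hg
  have hg' : wt g.toWord ≤ N := hg
  refine ⟨(length_le_wt _).trans hg', fun x hx => ?_⟩
  exact ⟨⟨lt_of_lt_of_le (mem_lt_wt hx) hg', trivial⟩, trivial⟩

theorem wlen_S {n : ℕ} {s : Gp} (hs : s ∈ S n) : wlen s ≤ n * n := by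
  induction n generalizing s with
  | zero =>
    simp only [S, Finset.mem_singleton] at hs
    subst hs
    simp [wlen, wt]
  | succ n ih =>
    obtain ⟨c, t, ht, rfl⟩ := mem_S_succ.1 hs
    have h1 := ih ht
    have h2 := wlen_mul (FreeGroup.of (n, c)) t
    have h3 : wlen (FreeGroup.of (n, c)) = n + 1 := by simp [wlen, wt]
    rw [h3] at h2
    nlinarith

/-- the proper length function -/
noncomputable def L (g : Gp) : ℝ := (len g : ℝ) + Real.log (1 + (wlen g : ℝ))

theorem log_nonneg (g : Gp) : 0 ≤ Real.log (1 + (wlen g : ℝ)) := by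
  apply Real.log_nonneg
  have : (0 : ℝ) ≤ wlen g := Nat.cast_nonneg _
  linarith

theorem len_le_L (g : Gp) : (len g : ℝ) ≤ L g := by
  have := log_nonneg g
  unfold L
  linarith

theorem L_mul (g h : Gp) : L (g * h) ≤ L g + L h := by
  have h1 : (len (g * h) : ℝ) ≤ len g + len h := by exact_mod_cast len_mul g h
  have h2 : (wlen (g * h) : ℝ) ≤ wlen g + wlen h := by exact_mod_cast wlen_mul g h
  have hg : (0 : ℝ) ≤ wlen g := Nat.cast_nonneg _
  have hh : (0 : ℝ) ≤ wlen h := Nat.cast_nonneg _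
  have hgh : (0 : ℝ) ≤ wlen (g * h) := Nat.cast_nonneg _
  have h3 : Real.log (1 + (wlen (g * h) : ℝ)) ≤ Real.log (1 + (wlen g : ℝ)) + Real.log (1 + (wlen h : ℝ)) := by
    rw [← Real.log_mul (by positivity) (by positivity)]
    apply Real.log_le_log (by positivity)
    nlinarith [mul_nonneg hg hh]
  unfold L
  linarith

theorem eq_one_of_len {g : Gp} (h : len g = 0) : g = 1 := by
  cases hw : g.toWord with
  | nil => exact FreeGroup.toWord_eq_nil_iff.1 hw
  | cons p tl =>
    exfalso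
    have h1 := occ_le_len p.1 g
    rw [h, hw] at h1
    have h2 : 0 < occ p.1 (p :: tl) := by
      unfold occ
      rw [List.countP_cons]
      simp
    omega

theorem finite_L (r : ℝ) : {g : Gp | L g ≤ r}.Finite := by
  refine (finite_wlen ⌊Real.exp r⌋₊).subset ?_
  intro g hg
  have hg' : L g ≤ r := hg
  have h1 : Real.log (1 + (wlen g : ℝ)) ≤ r := by
    have : (0 : ℝ) ≤ len g := Nat.cast_nonneg _
    unfold L at hg'
    linarith
  have h2 : (0 : ℝ) < 1 + (wlen g : ℝ) := by positivity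
  have h3 : 1 + (wlen g : ℝ) ≤ Real.exp r := (Real.log_le_iff_le_exp h2).1 h1
  show wlen g ≤ ⌊Real.exp r⌋₊
  apply Nat.le_floor
  linarith

theorem conv_lower (n : ℕ) (P : Finset Gp) (hP : ∀ s ∈ S n, ∀ b ∈ B n, s * b ∈ P)
    (F : Gp → ℝ) (hF : ∀ z, 0 ≤ F z)
    (hF' : ∀ y ∈ S n, (1 + (n : ℝ) / 2) ^ 2 ≤ F y) :
    ((S n).card : ℝ) * (1 + (n : ℝ) / 2) ^ 2 ≤ ∑ x ∈ P, F x := by
  have hsub : S n ⊆ P := by
    intro y hy
    have := hP y hy 1 (one_mem_B n)
    rwa [mul_one] at this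
  refine le_trans ?_ (Finset.sum_le_sum_of_subset_of_nonneg hsub (fun z _ _ => hF z))
  rw [← nsmul_eq_mul, ← Finset.sum_const]
  exact Finset.sum_le_sum hF'

theorem growth (C : ℝ) (hC : 0 < C) (e : ℕ) :
    ∃ n : ℕ, (C * (1 + (1 + Real.log (1 + ((n * n : ℕ) : ℝ)))) ^ e) ^ 2 < 1 + (n : ℝ) / 2 := by
  have h1 := (Real.isLittleO_pow_log_id_atTop (n := 2 * e)).def
    (c := 1 / (4 * Real.exp 1 * (C ^ 2 * 4 ^ e))) (by positivity)
  rw [Filter.eventually_atTop] at h1
  obtain ⟨a, ha⟩ := h1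
  obtain ⟨n, hn⟩ := exists_nat_gt a
  refine ⟨n, ?_⟩
  set x : ℝ := Real.exp 1 * (1 + n) with hx
  have hn0 : (0 : ℝ) ≤ n := Nat.cast_nonneg _
  have hexp : (1 : ℝ) ≤ Real.exp 1 := Real.one_le_exp (by norm_num)
  have hx1 : (1 + (n : ℝ)) ≤ x := by rw [hx]; nlinarith
  have hx0 : 0 < x := by linarith
  have h2 := ha x (by linarith)
  rw [Real.norm_eq_abs, Real.norm_eq_abs, id, abs_of_pos hx0] at h2
  have hlogx : Real.log x = 1 + Real.log (1 + n) := by
    rw [hx, Real.log_mul (by positivity) (by positivity), Real.log_exp]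
  have h3 : 1 + (1 + Real.log (1 + ((n * n : ℕ) : ℝ))) ≤ 2 * Real.log x := by
    have : Real.log (1 + ((n * n : ℕ) : ℝ)) ≤ 2 * Real.log (1 + n) := by
      rw [← Real.log_rpow (by positivity)]
      apply Real.log_le_log (by positivity)
      norm_num
      nlinarith
    rw [hlogx]
    linarith
  have h4 : 0 ≤ Real.log (1 + ((n * n : ℕ) : ℝ)) := Real.log_nonneg (by
    have : (0 : ℝ) ≤ ((n * n : ℕ) : ℝ) := Nat.cast_nonneg _
    linarith)
  have h5 : (C * (1 + (1 + Real.log (1 + ((n * n : ℕ) : ℝ)))) ^ e) ^ 2 ≤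
      (C ^ 2 * 4 ^ e) * Real.log x ^ (2 * e) := by
    calc (C * (1 + (1 + Real.log (1 + ((n * n : ℕ) : ℝ)))) ^ e) ^ 2
        ≤ (C * (2 * Real.log x) ^ e) ^ 2 := by gcongr
      _ = (C ^ 2 * 4 ^ e) * Real.log x ^ (2 * e) := by
          rw [mul_pow, mul_pow, mul_pow, ← pow_mul, ← pow_mul, mul_comm e 2, pow_mul 2 2 e]
          norm_num
          ring
  have h6 : (C ^ 2 * 4 ^ e) * Real.log x ^ (2 * e) ≤ x / (4 * Real.exp 1) := by
    calc (C ^ 2 * 4 ^ e) * Real.log x ^ (2 * e) ≤ (C ^ 2 * 4 ^ e) * |Real.log x ^ (2 * e)| := by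
          gcongr
          exact le_abs_self _
      _ ≤ (C ^ 2 * 4 ^ e) * (1 / (4 * Real.exp 1 * (C ^ 2 * 4 ^ e)) * x) := by gcongr
      _ = x / (4 * Real.exp 1) := by
          field_simp
  have h7 : x / (4 * Real.exp 1) = (1 + n) / 4 := by
    rw [hx]
    field_simp
  linarith

/-- There is a countable group with a proper length function (finite balls, vanishing only at the
identity) which has the property of Rapid Expansion and does not have property RD. -/
theorem result :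
    ∃ (G : Type) (_ : Group G) (_ : Countable G) (L : G → ℝ),
      (∀ g, 0 ≤ L g) ∧ (∀ g, L g = 0 ↔ g = 1) ∧ (∀ g, L g⁻¹ = L g) ∧
      (∀ g h, L (g * h) ≤ L g + L h) ∧ (∀ r : ℝ, {g : G | L g ≤ r}.Finite) ∧
      (∃ C : ℝ, 0 < C ∧ ∃ d : ℕ, ∀ r : ℝ, 0 ≤ r → ∀ S X : Finset G,
          (∀ s ∈ S, L s ≤ r) →
          (S.card : ℝ) * (X.card : ℝ) ≤ C * (1 + r) ^ d * ((S * X).card : ℝ)) ∧
      ¬ ∃ C : ℝ, 0 < C ∧ ∃ d : ℕ, ∀ r : ℝ, 0 ≤ r →
        ∀ (A B : Finset G) (f g : G → ℂ), (∀ y ∈ A, L y ≤ r) →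
          ∑ x ∈ A * B, ‖∑ p ∈ (A ×ˢ B).filter (fun p => p.1 * p.2 = x), f p.1 * g p.2‖ ^ 2
            ≤ (C * (1 + r) ^ d) ^ 2 * (∑ y ∈ A, ‖f y‖ ^ 2) * (∑ z ∈ B, ‖g z‖ ^ 2) := by
  refine ⟨Gp, inferInstance, FreeGroup.toWord_injective.countable, L, fun g => ?_, fun g => ⟨fun h => ?_, ?_⟩,
    fun g => ?_, L_mul, finite_L, ⟨16, by norm_num, 1, ?_⟩, ?_⟩
  · exact (Nat.cast_nonneg (len g)).trans (len_le_L g)
  · have h1 := len_le_L g
    rw [h] at h1
    have h2 : len g ≤ 0 := by exact_mod_cast h1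
    exact eq_one_of_len (by omega)
  · rintro rfl
    simp [L, len_one, wlen, wt]
  · unfold L
    rw [len_inv, wlen_inv]
  · intro r hr S' X hS
    have hfl : ∀ a ∈ S'.image (fun s => s⁻¹), len a ≤ ⌊r⌋₊ := by
      intro a ha
      rw [Finset.mem_image] at ha
      obtain ⟨s, hs, rfl⟩ := ha
      rw [len_inv]
      exact Nat.le_floor ((len_le_L s).trans (hS s hs))
    have key : ∀ P : Finset Gp, (∀ s ∈ S', ∀ x ∈ X, s * x ∈ P) →
        (S'.card : ℝ) * (X.card : ℝ) ≤ 16 * (1 + r) ^ 1 * (P.card : ℝ) := by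
      intro P hP'
      have hP : ∀ a ∈ S'.image (fun s => s⁻¹), ∀ x ∈ X, a⁻¹ * x ∈ P := by
        intro a ha x hx
        rw [Finset.mem_image] at ha
        obtain ⟨s, hs, rfl⟩ := ha
        rw [inv_inv]
        exact hP' s hs x hx
      have h1 := rapid_expansion ⌊r⌋₊ (S'.image (fun s => s⁻¹)) X P hfl hP
      rw [Finset.card_image_of_injective _ inv_injective] at h1
      have h2 : (S'.card : ℝ) * (X.card : ℝ) ≤ 4 * (1 + 4 * (⌊r⌋₊ : ℝ)) * (P.card : ℝ) := by
        exact_mod_cast h1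
      have h3 : (⌊r⌋₊ : ℝ) ≤ r := Nat.floor_le hr
      refine h2.trans ?_
      rw [pow_one]
      apply mul_le_mul_of_nonneg_right _ (Nat.cast_nonneg _)
      linarith
    apply key
    intro s hs x hx
    exact @Finset.mul_mem_mul _ (fun a b => Classical.propDecidable _) _ _ _ _ _ hs hx
  · rintro ⟨C, hC, e, hRD⟩
    obtain ⟨n, hn⟩ := growth C hC e
    have hlog0 : 0 ≤ Real.log (1 + ((n * n : ℕ) : ℝ)) := Real.log_nonneg (by
      have : (0 : ℝ) ≤ ((n * n : ℕ) : ℝ) := Nat.cast_nonneg _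
      linarith)
    have h := hRD (1 + Real.log (1 + ((n * n : ℕ) : ℝ))) (by linarith) (S n) (B n) (fun _ => 1)
      (fun z => (psi n z : ℂ))
      (fun y hy => by
        unfold L
        have h1 : (len y : ℝ) ≤ 1 := by exact_mod_cast len_S hy
        have h2 : (wlen y : ℝ) ≤ ((n * n : ℕ) : ℝ) := by exact_mod_cast wlen_S hy
        have h3 : Real.log (1 + (wlen y : ℝ)) ≤ Real.log (1 + ((n * n : ℕ) : ℝ)) :=
          Real.log_le_log (by positivity) (by linarith)
        linarith)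
    generalize (C * (1 + (1 + Real.log (1 + ((n * n : ℕ) : ℝ)))) ^ e) ^ 2 = K at h hn
    have hcard : (0 : ℝ) < (S n).card := by exact_mod_cast (S_nonempty n).card_pos
    have hval := (conv_lower n _ (by
      intro s hs b hb
      exact @Finset.mul_mem_mul _ (fun a b => Classical.propDecidable _) _ _ _ _ _ hs hb) _ (fun _ => by positivity) (by
      intro y hy
      have h1 : ∀ Q : Finset (Gp × Gp), (∀ p, p ∈ Q ↔ (p.1 ∈ S n ∧ p.2 ∈ B n) ∧ p.1 * p.2 = y) →
          ∑ p ∈ Q, (1 : ℂ) * (psi n p.2 : ℂ) = ((∑ s ∈ S n, psi n (s⁻¹ * y) : ℝ) : ℂ) := by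
        intro Q hQ
        push_cast
        simp only [one_mul]
        symm
        apply Finset.sum_bij (fun s _ => (s, s⁻¹ * y))
        · intro s hs
          rw [hQ]
          exact ⟨⟨hs, inv_mul_mem_B hs hy⟩, by group⟩
        · intro s _ t _ hst
          exact congrArg Prod.fst hst
        · rintro ⟨s, z⟩ hq
          rw [hQ] at hq
          refine ⟨s, hq.1.1, ?_⟩
          rw [← hq.2]
          simp
        · intro s _
          rfl
      rw [h1 _ (by intro p; simp only [Finset.mem_filter, Finset.mem_product]), Complex.norm_real,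
        Real.norm_eq_abs, sq_abs]
      have := conv_psi n hy
      gcongr)).trans h
    have hup : ∑ z ∈ B n, ‖(psi n z : ℂ)‖ ^ 2 ≤ 1 + (n : ℝ) / 2 := by
      refine le_trans (le_of_eq ?_) (norm_psi n)
      apply Finset.sum_congr rfl
      intro z _
      rw [Complex.norm_real, Real.norm_eq_abs, sq_abs]
    have hK0 : 0 ≤ K := by
      by_contra hneg
      push Not at hneg
      have h1 : K * (∑ y ∈ S n, ‖(1 : ℂ)‖ ^ 2) * (∑ z ∈ B n, ‖(psi n z : ℂ)‖ ^ 2) ≤ 0 := by
        apply mul_nonpos_of_nonpos_of_nonneg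
        · apply mul_nonpos_of_nonpos_of_nonneg hneg.le
          positivity
        · positivity
      have h2 : 0 < ((S n).card : ℝ) * (1 + (n : ℝ) / 2) ^ 2 := by positivity
      linarith
    have h5 : ((S n).card : ℝ) * (1 + (n : ℝ) / 2) ^ 2 ≤ K * ((S n).card : ℝ) * (1 + (n : ℝ) / 2) := by
      refine hval.trans ?_
      simp only [norm_one, one_pow, Finset.sum_const, nsmul_eq_mul, mul_one]
      gcongr
    have h6 : (0 : ℝ) < ((S n).card : ℝ) * (1 + (n : ℝ) / 2) := by positivity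
    have h7 : (((S n).card : ℝ) * (1 + (n : ℝ) / 2)) * (1 + (n : ℝ) / 2) ≤
        (((S n).card : ℝ) * (1 + (n : ℝ) / 2)) * K := by
      calc _ = ((S n).card : ℝ) * (1 + (n : ℝ) / 2) ^ 2 := by ring
        _ ≤ _ := h5
        _ = _ := by ring
    have h8 := le_of_mul_le_mul_left h7 h6
    linarith

end Pool.Agent.Results.MP_d581c5_al.ProperLength
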